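import Pool.Agent.H174.GP.StE
import Pool.Agent.H174.GP.StP

/-! Project GP: the bad event in the upper bound (helper539). -/

set_option autoImplicit false

open MeasureTheory ProbabilityTheory Finset

namespace Pool.Agent.H539.GP174

open Pool.Agent.H174.GP

/-- the mean of the geometric variable -/
noncomputable def Em (a : ℝ) : ℝ := Real.exp (-a) / (1 - Real.exp (-a))

lemma Em_eq {a : ℝ} (ha : 0 < a) : Em a = 1 / (Real.exp a - 1) := by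
  have h1 : 1 < Real.exp a := Real.one_lt_exp_iff.2 ha
  have h2 : Real.exp a ≠ 0 := (Real.exp_pos a).ne'
  have h3 : Real.exp a - 1 ≠ 0 := by linarith
  unfold Em
  rw [Real.exp_neg]
  have h4 : 1 - (Real.exp a)⁻¹ ≠ 0 := by
    have : (Real.exp a)⁻¹ < 1 := inv_lt_one_of_one_lt₀ h1
    linarith
  rw [div_eq_div_iff h4 h3]
  field_simp

lemma Em_nonneg {a : ℝ} (ha : 0 < a) : 0 ≤ Em a := by
  rw [Em_eq ha]
  have h1 : 1 < Real.exp a := Real.one_lt_exp_iff.2 ha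
  exact div_nonneg zero_le_one (by linarith)

lemma Em_le {a : ℝ} (ha : 0 < a) : Em a ≤ 1 / a := by
  rw [Em_eq ha]
  exact one_div_le_one_div_of_le ha (by linarith [Real.add_one_le_exp a])

lemma exp_conv {x y : ℝ} (hx : 0 ≤ x) (hxy : x ≤ y) (hy : 0 < y) :
    Real.exp x - 1 ≤ x / y * (Real.exp y - 1) := by
  have h := convexOn_exp.2 (Set.mem_univ y) (Set.mem_univ (0 : ℝ)) (show 0 ≤ x / y by positivity)
    (show 0 ≤ 1 - x / y by rw [sub_nonneg, div_le_one hy]; exact hxy) (by ring)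
  rw [smul_eq_mul, smul_eq_mul, smul_eq_mul, smul_eq_mul, mul_zero, add_zero, div_mul_cancel₀ _ hy.ne', Real.exp_zero,
    mul_one] at h
  linarith

lemma Em_diff0 {a b s2 : ℝ} (ha : 0 < a) (hab : a ≤ b) (has : a ≤ s2) :
    0 ≤ Em a - Em b ∧ Em a - Em b ≤ (1 + s2) * (b - a) / (a * b) := by
  have hb : 0 < b := ha.trans_le hab
  have hA : a ≤ Real.exp a - 1 := by linarith [Real.add_one_le_exp a]
  have hB : b ≤ Real.exp b - 1 := by linarith [Real.add_one_le_exp b]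
  have hA0 : 0 < Real.exp a - 1 := ha.trans_le hA
  have hB0 : 0 < Real.exp b - 1 := hb.trans_le hB
  have hE : Real.exp a ≤ Real.exp b := Real.exp_le_exp.2 hab
  have h1 := exp_conv (x := b - a) (y := b) (by linarith) (by linarith) hb
  have h2 : Real.exp b - Real.exp a = Real.exp a * (Real.exp (b - a) - 1) := by
    rw [mul_sub, ← Real.exp_add, mul_one]
    congr 2
    ring
  have h3 : Em a - Em b = (Real.exp b - Real.exp a) / ((Real.exp a - 1) * (Real.exp b - 1)) := by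
    rw [Em_eq ha, Em_eq hb]
    field_simp
    ring
  have h4 : Real.exp a / (Real.exp a - 1) ≤ (1 + s2) / a := by
    rw [div_le_div_iff₀ hA0 ha]
    have : Real.exp a * a ≤ (1 + a) * (Real.exp a - 1) := by nlinarith
    have h5 : (1 + a) * (Real.exp a - 1) ≤ (1 + s2) * (Real.exp a - 1) :=
      mul_le_mul_of_nonneg_right (by linarith) hA0.le
    exact this.trans h5
  constructor
  · rw [h3]
    exact div_nonneg (by linarith) (by positivity)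
  · have h5 : Em a - Em b = Real.exp a / (Real.exp a - 1) * ((Real.exp (b - a) - 1) / (Real.exp b - 1)) := by
      rw [h3, h2]
      field_simp
    have h6 : (Real.exp (b - a) - 1) / (Real.exp b - 1) ≤ (b - a) / b := by
      rw [div_le_iff₀ hB0]
      exact h1
    have h7 : 0 ≤ (Real.exp (b - a) - 1) / (Real.exp b - 1) :=
      div_nonneg (by linarith [Real.add_one_le_exp (b - a)]) hB0.le
    rw [h5]
    have hs : 0 ≤ (1 + s2) / a := div_nonneg (by linarith) ha.le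
    refine (mul_le_mul h4 h6 h7 hs).trans (le_of_eq ?_)
    field_simp

lemma Em_diff {σ σ' j s2 : ℝ} (hσ : 0 < σ) (hσ' : 0 < σ') (hj : 0 < j) (h : σ * j ≤ s2) (h' : σ' * j ≤ s2) :
    |Em (σ * j) - Em (σ' * j)| ≤ (1 + s2) * |σ - σ'| / (σ * σ') * j⁻¹ := by
  rcases le_total σ σ' with hle | hle
  · obtain ⟨g1, g2⟩ := Em_diff0 (a := σ * j) (b := σ' * j) (mul_pos hσ hj) (mul_le_mul_of_nonneg_right hle hj.le) h
    rw [abs_of_nonneg g1, abs_of_nonpos (by linarith)]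
    refine g2.trans (le_of_eq ?_)
    field_simp
    ring
  · obtain ⟨g1, g2⟩ := Em_diff0 (a := σ' * j) (b := σ * j) (mul_pos hσ' hj) (mul_le_mul_of_nonneg_right hle hj.le) h'
    rw [abs_sub_comm, abs_of_nonneg g1, abs_of_nonneg (by linarith)]
    refine g2.trans (le_of_eq ?_)
    field_simp

lemma harm (L d : ℕ) : ∑ j ∈ Finset.Ioc L d, ((j : ℝ))⁻¹ ≤ 1 + Real.log d := by
  have h1 := harmonic_le_one_add_log d
  rw [harmonic_eq_sum_Icc] at h1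
  push_cast at h1
  refine le_trans (Finset.sum_le_sum_of_subset_of_nonneg ?_ fun _ _ _ => by positivity) h1
  intro j hj
  rw [Finset.mem_Ioc] at hj
  rw [Finset.mem_Icc]
  omega

/-- the difference of the means, `d ≤ d'` -/
lemma means0 {σ σ' s1 s2 ρ : ℝ} {L d d' : ℕ} (hσ : 0 < σ) (hσ' : 0 < σ') (hs1 : 0 < s1) (hρ : 0 < ρ)
    (hdd : d ≤ d') (hr : ρ * d' ≤ d) (h2 : σ * d ≤ s2) (h2' : σ' * d' ≤ s2) (h1' : s1 ≤ σ' * d') :
    |∑ j ∈ Finset.Ioc L d, Em (σ * j) - ∑ j ∈ Finset.Ioc L d', Em (σ' * j)| ≤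
      (1 + s2) * |σ - σ'| / (σ * σ') * (1 + Real.log d) + 1 / (ρ * s1) * ((d' : ℝ) - d) := by
  have hs2 : 0 ≤ s2 := le_trans (by positivity) h2
  have hsub : Finset.Ioc L d ⊆ Finset.Ioc L d' := Finset.Ioc_subset_Ioc_right hdd
  have e1 := Finset.sum_sdiff (f := fun j : ℕ => Em (σ' * j)) hsub
  have hdd' : (d : ℝ) ≤ d' := by exact_mod_cast hdd
  have e2 : ∑ j ∈ Finset.Ioc L d, Em (σ * j) - ∑ j ∈ Finset.Ioc L d', Em (σ' * j) =
      ∑ j ∈ Finset.Ioc L d, (Em (σ * j) - Em (σ' * j)) - ∑ j ∈ Finset.Ioc L d' \ Finset.Ioc L d, Em (σ' * j) := by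
    rw [← e1, Finset.sum_sub_distrib]
    ring
  rw [e2]
  refine (abs_sub _ _).trans (add_le_add ?_ ?_)
  · refine (Finset.abs_sum_le_sum_abs _ _).trans ?_
    have h3 : ∀ j ∈ Finset.Ioc L d, |Em (σ * j) - Em (σ' * j)| ≤ (1 + s2) * |σ - σ'| / (σ * σ') * ((j : ℝ))⁻¹ := by
      intro j hj
      rw [Finset.mem_Ioc] at hj
      have hj0 : (0 : ℝ) < j := by
        have : 0 < j := by omega
        exact_mod_cast this
      have hjd : (j : ℝ) ≤ d := by exact_mod_cast hj.2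
      exact Em_diff hσ hσ' hj0 ((mul_le_mul_of_nonneg_left hjd hσ.le).trans h2)
        ((mul_le_mul_of_nonneg_left (hjd.trans hdd') hσ'.le).trans h2')
    refine (Finset.sum_le_sum h3).trans ?_
    rw [← Finset.mul_sum]
    exact mul_le_mul_of_nonneg_left (harm L d) (by positivity)
  · have h3 : ∀ j ∈ Finset.Ioc d d', Em (σ' * j) ≤ 1 / (ρ * s1) ∧ 0 ≤ Em (σ' * j) := by
      intro j hj
      rw [Finset.mem_Ioc] at hj
      have hjd : (d : ℝ) ≤ j := by exact_mod_cast hj.1.le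
      have hj0 : (0 : ℝ) < j := by
        have : 0 < j := by omega
        exact_mod_cast this
      have h4 : ρ * s1 ≤ σ' * j := by
        calc ρ * s1 ≤ ρ * (σ' * d') := mul_le_mul_of_nonneg_left h1' hρ.le
          _ = σ' * (ρ * d') := by ring
          _ ≤ σ' * j := mul_le_mul_of_nonneg_left (hr.trans hjd) hσ'.le
      have h5 : 0 < σ' * j := mul_pos hσ' hj0
      exact ⟨(Em_le h5).trans (one_div_le_one_div_of_le (mul_pos hρ hs1) h4), Em_nonneg h5⟩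
    have hsub2 : Finset.Ioc L d' \ Finset.Ioc L d ⊆ Finset.Ioc d d' := by
      intro j hj
      rw [Finset.mem_sdiff, Finset.mem_Ioc, Finset.mem_Ioc] at hj
      rw [Finset.mem_Ioc]
      omega
    have h6 : 0 ≤ ∑ j ∈ Finset.Ioc L d' \ Finset.Ioc L d, Em (σ' * j) :=
      Finset.sum_nonneg fun j hj => (h3 j (hsub2 hj)).2
    rw [abs_of_nonneg h6]
    refine (Finset.sum_le_sum_of_subset_of_nonneg hsub2 fun j hj _ => (h3 j hj).2).trans ?_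
    refine (Finset.sum_le_sum fun j hj => (h3 j hj).1).trans ?_
    rw [Finset.sum_const, Nat.card_Ioc, nsmul_eq_mul, Nat.cast_sub hdd, mul_comm]

/-- the difference of the means -/
lemma means {σ σ' s1 s2 ρ : ℝ} {L d d' : ℕ} (hσ : 0 < σ) (hσ' : 0 < σ') (hs1 : 0 < s1) (hρ : 0 < ρ)
    (hd0 : 1 ≤ d) (hd0' : 1 ≤ d') (hr : ρ * d' ≤ d) (hr' : ρ * d ≤ d') (h2 : σ * d ≤ s2) (h2' : σ' * d' ≤ s2)
    (h1 : s1 ≤ σ * d) (h1' : s1 ≤ σ' * d') :
    |∑ j ∈ Finset.Ioc L d, Em (σ * j) - ∑ j ∈ Finset.Ioc L d', Em (σ' * j)| ≤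
      (1 + s2) * |σ - σ'| / (σ * σ') * (1 + Real.log d) + 1 / (ρ * s1) * |(d : ℝ) - d'| := by
  rcases le_total d d' with h | h
  · have h3 := means0 (L := L) hσ hσ' hs1 hρ h hr h2 h2' h1'
    have h4 : (d : ℝ) ≤ d' := by exact_mod_cast h
    rw [abs_of_nonpos (sub_nonpos.2 h4), neg_sub]
    exact h3
  · have h3 := means0 (L := L) hσ' hσ hs1 hρ h hr' h2' h2 h1
    have h4 : (d' : ℝ) ≤ d := by exact_mod_cast h
    have h0 : (1 : ℝ) ≤ d' := by exact_mod_cast hd0'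
    have h5 : Real.log d' ≤ Real.log d := Real.log_le_log (by linarith) h4
    have hs2 : 0 ≤ s2 := le_trans (by positivity) h2
    rw [abs_sub_comm, abs_of_nonneg (sub_nonneg.2 h4)]
    refine h3.trans (add_le_add ?_ le_rfl)
    rw [abs_sub_comm σ' σ, mul_comm σ' σ]
    exact mul_le_mul_of_nonneg_left (by linarith) (by positivity)

lemma sum_inv_sq (L d : ℕ) (hL : 1 ≤ L) : ∑ j ∈ Finset.Ioc L d, ((j : ℝ) ^ 2)⁻¹ ≤ (L : ℝ)⁻¹ := by
  rcases le_or_gt L d with h | h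
  · refine (sum_Ioc_inv_sq_le_sub (by omega) h).trans ?_
    have : (0 : ℝ) ≤ (d : ℝ)⁻¹ := by positivity
    linarith
  · rw [Finset.Ioc_eq_empty (by omega), Finset.sum_empty]
    positivity

/-- the far part of the centred sum (adaptation of `Pool.Agent.H59.GP174.gp_contam`) -/
lemma tail_g (h1 : S_mgfg) (h2 : S_chern) (s2 : ℝ) (hs2 : 0 < s2) : ∃ Cc : ℝ, 0 < Cc ∧
    ∀ (σ : ℝ) (d L : ℕ) (t : ℝ), 0 < σ → 1 ≤ L → σ * d ≤ s2 →
      PP.real {ω | t / (σ * Real.sqrt L) ≤ |∑ j ∈ Finset.Ioc L d, ((gs σ ω j : ℝ) - Em (σ * j))|} ≤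
        2 * Real.exp (Cc - t / 4) := by
  obtain ⟨Cm, hCm, hm⟩ := h1 s2 hs2
  refine ⟨Cm / 16, by positivity, fun σ d L t hσ hL hd => ?_⟩
  have hL0 : (0 : ℝ) < L := by
    have : 0 < L := by omega
    exact_mod_cast this
  have hL1 : (1 : ℝ) ≤ L := by exact_mod_cast hL
  have hs0 : 0 < Real.sqrt L := Real.sqrt_pos.2 hL0
  have hsq : Real.sqrt L ^ 2 = L := Real.sq_sqrt hL0.le
  set θ : ℝ := σ * Real.sqrt L / 4 with hθ
  have hθ0 : 0 ≤ θ := by positivity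
  have hj : ∀ j ∈ Finset.Ioc L d, 0 < σ * (j : ℝ) ∧ σ * (j : ℝ) ≤ s2 ∧ |θ| ≤ σ * (j : ℝ) / 4 ∧ (0 : ℝ) < j := by
    intro j hj
    rw [Finset.mem_Ioc] at hj
    have hj0 : (L : ℝ) < j := by exact_mod_cast hj.1
    have hjd : (j : ℝ) ≤ d := by exact_mod_cast hj.2
    have hj1 : (0 : ℝ) < j := hL0.trans hj0
    refine ⟨by positivity, (mul_le_mul_of_nonneg_left hjd hσ.le).trans hd, ?_, hj1⟩
    rw [abs_of_nonneg hθ0, hθ]
    have h4 : Real.sqrt L ≤ L := by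
      nlinarith [Real.one_le_sqrt.2 hL1]
    have h5 : σ * Real.sqrt L ≤ σ * j := mul_le_mul_of_nonneg_left (h4.trans hj0.le) hσ.le
    linarith
  have hneg : ∀ (j : ℕ) (x : ℝ), -(θ * ((⌊|x| / (σ * j)⌋₊ : ℝ) - Em (σ * j))) =
      (-θ) * ((⌊|x| / (σ * j)⌋₊ : ℝ) - Em (σ * j)) := fun j x => by ring
  have key := h2 (Finset.Ioc L d) (fun j x => (⌊|x| / (σ * j)⌋₊ : ℝ) - Em (σ * j))
    (fun j => Cm * θ ^ 2 / (σ * j) ^ 2) θ (t / (σ * Real.sqrt L)) hθ0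
    (fun j _ => by
      have h4 : Measurable fun x : ℝ => ⌊|x| / (σ * j)⌋₊ := Nat.measurable_floor.comp (by fun_prop)
      exact ((measurable_from_top (f := fun k : ℕ => (k : ℝ))).comp h4).sub_const _)
    (fun j hj' => by
      obtain ⟨a1, a2, a3, -⟩ := hj j hj'
      refine ⟨(hm (σ * j) θ a1 a2 a3).1, ?_⟩
      simp only [hneg]
      exact (hm (σ * j) (-θ) a1 a2 (by rwa [abs_neg])).1)
    (fun j hj' => by
      obtain ⟨a1, a2, a3, -⟩ := hj j hj'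
      refine ⟨(hm (σ * j) θ a1 a2 a3).2, ?_⟩
      simp only [hneg]
      have h4 := (hm (σ * j) (-θ) a1 a2 (by rwa [abs_neg])).2
      rwa [neg_sq] at h4)
  refine key.trans ?_
  have h4 : θ * (t / (σ * Real.sqrt L)) = t / 4 := by
    rw [hθ]
    field_simp
  have h5 : ∑ j ∈ Finset.Ioc L d, Cm * θ ^ 2 / (σ * (j : ℝ)) ^ 2 ≤ Cm / 16 := by
    have h6 : ∀ j ∈ Finset.Ioc L d, Cm * θ ^ 2 / (σ * (j : ℝ)) ^ 2 = Cm * L / 16 * ((j : ℝ) ^ 2)⁻¹ := by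
      intro j hj'
      obtain ⟨-, -, -, a4⟩ := hj j hj'
      rw [hθ, div_pow, mul_pow, hsq]
      field_simp
      norm_num
    rw [Finset.sum_congr rfl h6, ← Finset.mul_sum]
    have h7 := mul_le_mul_of_nonneg_left (sum_inv_sq L d hL) (show 0 ≤ Cm * L / 16 by positivity)
    refine h7.trans (le_of_eq ?_)
    field_simp
  rw [h4]
  refine mul_le_mul_of_nonneg_left (Real.exp_le_exp.2 ?_) (by norm_num)
  linarith

/-- the first coordinate -/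
lemma tail_1 (h4 : S_L3) (σ x : ℝ) (hσ : 0 < σ) (hx : 0 ≤ x) :
    PP.real {ω | x < (gs σ ω 1 : ℝ)} ≤ Real.exp (-(σ * x)) := by
  have hsub : {ω : ℕ → ℝ | x < (gs σ ω 1 : ℝ)} ⊆ (fun ω : ℕ → ℝ => ω 1) ⁻¹' {y : ℝ | σ * x ≤ |y|} := by
    intro ω hω
    have h5 : x < (⌊|ω 1| / (σ * ((1 : ℕ) : ℝ))⌋₊ : ℝ) := hω
    rw [Nat.cast_one, mul_one] at h5
    have h6 : (⌊|ω 1| / σ⌋₊ : ℝ) ≤ |ω 1| / σ := Nat.floor_le (by positivity)
    have h7 : x < |ω 1| / σ := h5.trans_le h6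
    rw [lt_div_iff₀ hσ] at h7
    change σ * x ≤ |ω 1|
    linarith
  have hmp := measurePreserving_eval_infinitePi (fun _ : ℕ => lap) 1
  have hms : MeasurableSet {y : ℝ | σ * x ≤ |y|} := measurableSet_le measurable_const (by fun_prop)
  have h8 : PP.real ((fun ω : ℕ → ℝ => ω 1) ⁻¹' {y : ℝ | σ * x ≤ |y|}) = lap.real {y : ℝ | σ * x ≤ |y|} := by
    unfold Measure.real
    congr 1
    exact hmp.measure_preimage hms.nullMeasurableSet
  refine (measureReal_mono hsub).trans ?_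
  rw [h8, h4.2.1 (σ * x) (by positivity)]

lemma pr_fst (S : Set (ℕ → ℝ)) : (PP.prod PP).real {p | p.1 ∈ S} = PP.real S := by
  have e : {p : (ℕ → ℝ) × (ℕ → ℝ) | p.1 ∈ S} = S ×ˢ Set.univ := by
    ext p
    rw [Set.mem_prod]
    exact ⟨fun h => ⟨h, Set.mem_univ _⟩, fun h => h.1⟩
  unfold Measure.real
  rw [e, Measure.prod_prod, measure_univ, mul_one]

lemma pr_snd (S : Set (ℕ → ℝ)) : (PP.prod PP).real {p | p.2 ∈ S} = PP.real S := by
  have e : {p : (ℕ → ℝ) × (ℕ → ℝ) | p.2 ∈ S} = Set.univ ×ˢ S := by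
    ext p
    rw [Set.mem_prod]
    exact ⟨fun h => ⟨Set.mem_univ _, h⟩, fun h => h.2⟩
  unfold Measure.real
  rw [e, Measure.prod_prod, measure_univ, one_mul]

/-- the union bound -/
lemma bad_le (d d' : ℕ) (σ σ' e T : ℝ)
    (hT : T = ((d : ℝ) / Real.sqrt ⌊(d : ℝ) ^ (1 - e)⌋₊) * (Real.log d) ^ 2 / 2)
    (hM : |((d : ℝ) - d') + (∑ j ∈ Finset.Ioc ⌊(d : ℝ) ^ (1 - e)⌋₊ d, Em (σ * j) -
      ∑ j ∈ Finset.Ioc ⌊(d : ℝ) ^ (1 - e)⌋₊ d', Em (σ' * j))| ≤ T / 2) :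
    (PP.prod PP).real (BadS d d' σ σ' e) ≤
      (PP.real {ω | (d : ℝ) * (Real.log d) ^ 2 / 2 < (gs σ ω 1 : ℝ)} +
        PP.real {ω | (d : ℝ) * (Real.log d) ^ 2 / 2 < (gs σ' ω 1 : ℝ)}) +
      (PP.real {ω | T / 4 ≤ |∑ j ∈ Finset.Ioc ⌊(d : ℝ) ^ (1 - e)⌋₊ d, ((gs σ ω j : ℝ) - Em (σ * j))|} +
        PP.real {ω | T / 4 ≤ |∑ j ∈ Finset.Ioc ⌊(d : ℝ) ^ (1 - e)⌋₊ d', ((gs σ' ω j : ℝ) - Em (σ' * j))|}) := by
  set L := ⌊(d : ℝ) ^ (1 - e)⌋₊ with hL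
  set x : ℝ := (d : ℝ) * (Real.log d) ^ 2 / 2 with hx
  rw [← pr_fst {ω | x < (gs σ ω 1 : ℝ)}, ← pr_snd {ω | x < (gs σ' ω 1 : ℝ)},
    ← pr_fst {ω | T / 4 ≤ |∑ j ∈ Finset.Ioc L d, ((gs σ ω j : ℝ) - Em (σ * j))|},
    ← pr_snd {ω | T / 4 ≤ |∑ j ∈ Finset.Ioc L d', ((gs σ' ω j : ℝ) - Em (σ' * j))|}]
  have hsub : BadS d d' σ σ' e ⊆ ({p | p.1 ∈ {ω | x < (gs σ ω 1 : ℝ)}} ∪ {p | p.2 ∈ {ω | x < (gs σ' ω 1 : ℝ)}}) ∪
      ({p | p.1 ∈ {ω | T / 4 ≤ |∑ j ∈ Finset.Ioc L d, ((gs σ ω j : ℝ) - Em (σ * j))|}} ∪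
        {p | p.2 ∈ {ω | T / 4 ≤ |∑ j ∈ Finset.Ioc L d', ((gs σ' ω j : ℝ) - Em (σ' * j))|}}) := by
    intro p hp
    rcases hp with h | h
    · left
      by_contra hcon
      rw [Set.mem_union, not_or] at hcon
      have g1 : (gs σ p.1 1 : ℝ) ≤ x := not_lt.1 hcon.1
      have g2 : (gs σ' p.2 1 : ℝ) ≤ x := not_lt.1 hcon.2
      have g3 : (0 : ℝ) ≤ (gs σ p.1 1 : ℝ) := Nat.cast_nonneg _
      have g4 : (0 : ℝ) ≤ (gs σ' p.2 1 : ℝ) := Nat.cast_nonneg _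
      have g5 : |(gs σ p.1 1 : ℝ) - gs σ' p.2 1| ≤ x := abs_le.2 ⟨by linarith, by linarith⟩
      linarith
    · right
      by_contra hcon
      rw [Set.mem_union, not_or] at hcon
      have g1 : |∑ j ∈ Finset.Ioc L d, ((gs σ p.1 j : ℝ) - Em (σ * j))| < T / 4 := not_le.1 hcon.1
      have g2 : |∑ j ∈ Finset.Ioc L d', ((gs σ' p.2 j : ℝ) - Em (σ' * j))| < T / 4 := not_le.1 hcon.2
      rw [← hT] at h
      rw [Finset.sum_sub_distrib, abs_lt] at g1 g2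
      rw [abs_le] at hM
      have g3 : |((d : ℝ) - d') + ∑ j ∈ Finset.Ioc L d, (gs σ p.1 j : ℝ)
          - ∑ j ∈ Finset.Ioc L d', (gs σ' p.2 j : ℝ)| ≤ T := abs_le.2 ⟨by linarith, by linarith⟩
      linarith
  refine (measureReal_mono hsub).trans ?_
  refine (measureReal_union_le _ _).trans (add_le_add (measureReal_union_le _ _) (measureReal_union_le _ _))

/-- the conditions for large `ℓ = log d` -/
lemma num (A κ K Cc b ℓ : ℝ) (hA : 0 < A) (_hκ : 0 < κ) (hK : 0 < K) (hC : 0 < Cc)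
    (h1 : 1 ≤ ℓ) (h2 : 64 * K ^ 2 ≤ ℓ) (h3 : 32 * (4 * A + 2 + Cc) ≤ κ * ℓ) (h4 : b ≤ ℓ) :
    K * Real.sqrt ℓ * (1 + ℓ) ≤ ℓ ^ 2 / 4 ∧
    6 * Real.exp (Cc - κ * ℓ ^ 2 / 32) ≤ Real.exp (-(2 * A * (ℓ + b))) := by
  have hℓ : 0 < ℓ := by linarith
  constructor
  · have hs : Real.sqrt ℓ ^ 2 = ℓ := Real.sq_sqrt hℓ.le
    have hs0 : 0 ≤ Real.sqrt ℓ := Real.sqrt_nonneg _
    have h5 : 8 * K ≤ Real.sqrt ℓ := by
      apply Real.le_sqrt_of_sq_le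
      nlinarith
    have h6 : K * Real.sqrt ℓ * (1 + ℓ) ≤ K * Real.sqrt ℓ * (2 * ℓ) :=
      mul_le_mul_of_nonneg_left (by linarith) (by positivity)
    have h7 : K * Real.sqrt ℓ * (2 * ℓ) ≤ (Real.sqrt ℓ / 8) * Real.sqrt ℓ * (2 * ℓ) := by
      have : K * Real.sqrt ℓ ≤ (Real.sqrt ℓ / 8) * Real.sqrt ℓ :=
        mul_le_mul_of_nonneg_right (by linarith) hs0
      exact mul_le_mul_of_nonneg_right this (by positivity)
    have h8 : (Real.sqrt ℓ / 8) * Real.sqrt ℓ * (2 * ℓ) = ℓ ^ 2 / 4 := by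
      have : (Real.sqrt ℓ / 8) * Real.sqrt ℓ = ℓ / 8 := by
        rw [div_mul_eq_mul_div, ← sq, hs]
      rw [this]
      ring
    linarith
  · have h6 : (6 : ℝ) ≤ Real.exp 2 := by
      have h9 := Real.exp_one_gt_d9
      have h10 : Real.exp 2 = Real.exp 1 * Real.exp 1 := by
        rw [← Real.exp_add]
        norm_num
      rw [h10]
      nlinarith
    calc 6 * Real.exp (Cc - κ * ℓ ^ 2 / 32) ≤ Real.exp 2 * Real.exp (Cc - κ * ℓ ^ 2 / 32) :=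
          mul_le_mul_of_nonneg_right h6 (Real.exp_pos _).le
      _ = Real.exp (2 + (Cc - κ * ℓ ^ 2 / 32)) := by rw [← Real.exp_add]
      _ ≤ Real.exp (-(2 * A * (ℓ + b))) := by
          apply Real.exp_le_exp.2
          have h7 : 32 * (4 * A + 2 + Cc) * ℓ ≤ κ * ℓ * ℓ := mul_le_mul_of_nonneg_right h3 hℓ.le
          have h8 : 2 * A * (ℓ + b) ≤ 4 * A * ℓ := by nlinarith
          have h9 : (2 + Cc) * 1 ≤ (2 + Cc) * ℓ := mul_le_mul_of_nonneg_left h1 (by linarith)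
          nlinarith

theorem gp_du1 (h1 : S_sigc) (h2 : S_mgfg) (h3 : S_chern) (h4 : S_L3) : Pool.Agent.H174.GP.S_DU1 := by
  intro c1 c2 s1 s2 C e A hc1 hc12 hc2 hs1 hs2 hC he he1 hA
  obtain ⟨C1, hC1, hsig⟩ := h1 c1 c2 s1 s2 hc1 hc12 hc2 hs1 hs2
  obtain ⟨Cc, hCc, htail⟩ := tail_g h2 h3 s2 hs2
  have hc20 : 0 < c2 := hc1.trans hc12
  set ρ : ℝ := c1 / c2 with hρ
  have hρ0 : 0 < ρ := div_pos hc1 hc20
  have hρ1 : ρ ≤ 1 := by
    rw [hρ, div_le_one hc20]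
    exact hc12.le
  set κ : ℝ := ρ * s1 with hκ
  have hκ0 : 0 < κ := mul_pos hρ0 hs1
  set K1 : ℝ := (1 + s2) * C1 / (s1 * κ) + 1 / κ + 1 with hK1
  have hK10 : 0 < K1 := by positivity
  set K : ℝ := K1 * (C * Real.sqrt (3 / c1)) with hK
  have hK0 : 0 < K := by positivity
  set b : ℝ := -Real.log c1 with hb
  have hb0 : 0 < b := by
    rw [hb]
    have := Real.log_neg hc1 (by linarith)
    linarith
  set ℓ0 : ℝ := max 1 (max (64 * K ^ 2) (max (32 * (4 * A + 2 + Cc) / κ) (2 * b))) with hℓ0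
  obtain ⟨n0, hn0⟩ := exists_nat_ge ((Real.exp ℓ0 / c1) ^ 2)
  refine ⟨n0, fun n hn d d' σ σ' hd1 hd2 hd1' hd2' hσ hσ' hmu hmu' hsd1 hsd2 hsd1' hsd2' hdd => ?_⟩
  -- sizes
  have hnn : (Real.exp ℓ0 / c1) ^ 2 ≤ (n : ℝ) := hn0.trans (by exact_mod_cast hn)
  have hEc : 0 < Real.exp ℓ0 / c1 := by positivity
  have hnpos : (0 : ℝ) < n := lt_of_lt_of_le (by positivity) hnn
  have hn1 : 1 ≤ n := by
    have : 0 < n := by exact_mod_cast hnpos
    omega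
  have hsn : Real.exp ℓ0 / c1 ≤ Real.sqrt n := Real.le_sqrt_of_sq_le hnn
  have hsn0 : 0 < Real.sqrt n := hEc.trans_le hsn
  have hdE : Real.exp ℓ0 ≤ d := by
    refine le_trans ?_ hd1
    have := mul_le_mul_of_nonneg_left hsn hc1.le
    rwa [mul_div_cancel₀ _ hc1.ne'] at this
  have hd0 : (0 : ℝ) < d := (Real.exp_pos _).trans_le hdE
  have hdE' : Real.exp ℓ0 ≤ d' := by
    refine le_trans ?_ hd1'
    have := mul_le_mul_of_nonneg_left hsn hc1.le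
    rwa [mul_div_cancel₀ _ hc1.ne'] at this
  have hd0' : (0 : ℝ) < d' := (Real.exp_pos _).trans_le hdE'
  have hdn : 1 ≤ d := by
    have : 0 < d := by exact_mod_cast hd0
    omega
  have hdn' : 1 ≤ d' := by
    have : 0 < d' := by exact_mod_cast hd0'
    omega
  have hdR : (1 : ℝ) ≤ d := by exact_mod_cast hdn
  set ℓ : ℝ := Real.log d with hℓ
  have hℓ1 : ℓ0 ≤ ℓ := by
    have := Real.log_le_log (Real.exp_pos _) hdE
    rwa [Real.log_exp] at this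
  have g1 : 1 ≤ ℓ := (le_max_left _ _).trans hℓ1
  have g2 : 64 * K ^ 2 ≤ ℓ := ((le_max_left _ _).trans (le_max_right _ _)).trans hℓ1
  have g3 : 32 * (4 * A + 2 + Cc) ≤ κ * ℓ := by
    have h5 : 32 * (4 * A + 2 + Cc) / κ ≤ ℓ :=
      ((le_max_left _ _).trans ((le_max_right _ _).trans (le_max_right _ _))).trans hℓ1
    rw [div_le_iff₀ hκ0] at h5
    linarith
  have g4 : 2 * b ≤ ℓ := ((le_max_right _ _).trans ((le_max_right _ _).trans (le_max_right _ _))).trans hℓ1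
  obtain ⟨q1, q2⟩ := num A κ K Cc b ℓ hA hκ0 hK0 hCc g1 g2 g3 (by linarith)
  -- comparison of `d` and `d'`
  have hr : ρ * d' ≤ d := by
    calc ρ * d' ≤ ρ * (c2 * Real.sqrt n) := mul_le_mul_of_nonneg_left hd2' hρ0.le
      _ = c1 * Real.sqrt n := by rw [hρ]; field_simp
      _ ≤ d := hd1
  have hr' : ρ * d ≤ d' := by
    calc ρ * d ≤ ρ * (c2 * Real.sqrt n) := mul_le_mul_of_nonneg_left hd2 hρ0.le
      _ = c1 * Real.sqrt n := by rw [hρ]; field_simp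
      _ ≤ d' := hd1'
  -- `log n`
  have hsnd : Real.sqrt n ≤ d / c1 := by
    rw [le_div_iff₀ hc1]
    linarith
  have hlogn : Real.log n ≤ 2 * (ℓ + b) := by
    have h5 : Real.log n = 2 * Real.log (Real.sqrt n) := by
      rw [Real.log_sqrt hnpos.le]
      ring
    have h6 : Real.log (Real.sqrt n) ≤ Real.log (d / c1) := Real.log_le_log hsn0 hsnd
    rw [Real.log_div hd0.ne' hc1.ne'] at h6
    rw [h5, hb]
    linarith
  have hlogn3 : Real.log n ≤ 3 * ℓ := by linarith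
  have hddb : |(d : ℝ) - d'| ≤ C * Real.sqrt (3 / c1) * (Real.sqrt d * Real.sqrt ℓ) := by
    refine hdd.trans ?_
    rw [mul_assoc]
    refine mul_le_mul_of_nonneg_left ?_ hC.le
    rw [← Real.sqrt_mul hd0.le, ← Real.sqrt_mul (by positivity)]
    apply Real.sqrt_le_sqrt
    have hln0 : 0 ≤ Real.log n := Real.log_nonneg (by exact_mod_cast hn1)
    calc Real.sqrt n * Real.log n ≤ (d / c1) * (3 * ℓ) := mul_le_mul hsnd hlogn3 hln0 (by positivity)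
      _ = 3 / c1 * (d * ℓ) := by ring
  -- `L`
  set L : ℕ := ⌊(d : ℝ) ^ (1 - e)⌋₊ with hL
  have hL1 : 1 ≤ L := by
    rw [hL, Nat.one_le_floor_iff]
    exact Real.one_le_rpow hdR (by linarith)
  have hL0 : (0 : ℝ) < L := by exact_mod_cast hL1
  have hLd : (L : ℝ) ≤ d := by
    have h5 : (L : ℝ) ≤ (d : ℝ) ^ (1 - e) := Nat.floor_le (by positivity)
    refine h5.trans ?_
    calc (d : ℝ) ^ (1 - e) ≤ (d : ℝ) ^ (1 : ℝ) := Real.rpow_le_rpow_of_exponent_le hdR (by linarith)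
      _ = d := Real.rpow_one _
  have hsL : 0 < Real.sqrt L := Real.sqrt_pos.2 hL0
  have hdL : Real.sqrt d ≤ d / Real.sqrt L := by
    rw [le_div_iff₀ hsL]
    calc Real.sqrt d * Real.sqrt L ≤ Real.sqrt d * Real.sqrt d :=
          mul_le_mul_of_nonneg_left (Real.sqrt_le_sqrt hLd) (Real.sqrt_nonneg _)
      _ = d := Real.mul_self_sqrt hd0.le
  set T : ℝ := ((d : ℝ) / Real.sqrt L) * ℓ ^ 2 / 2 with hT
  -- the means
  have hσσ : s1 * κ / (d : ℝ) ^ 2 ≤ σ * σ' := by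
    rw [div_le_iff₀ (by positivity)]
    have h5 : κ ≤ σ' * d := by
      calc κ = ρ * s1 := rfl
        _ ≤ ρ * (σ' * d') := mul_le_mul_of_nonneg_left hsd1' hρ0.le
        _ = σ' * (ρ * d') := by ring
        _ ≤ σ' * d := mul_le_mul_of_nonneg_left hr hσ'.le
    calc s1 * κ ≤ (σ * d) * (σ' * d) := mul_le_mul hsd1 h5 hκ0.le (by positivity)
      _ = σ * σ' * (d : ℝ) ^ 2 := by ring
  have hsg := hsig n d d' σ σ' hn1 hdn hdn' hd1 hd2 hd1' hd2' hσ hσ' hmu hmu' hsd1 hsd2 hsd1' hsd2'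
  have hquot : |σ - σ'| / (σ * σ') ≤ C1 / (s1 * κ) * |(d : ℝ) - d'| := by
    rw [div_le_iff₀ (mul_pos hσ hσ')]
    refine hsg.trans ?_
    have h5 := mul_le_mul_of_nonneg_left hσσ (show 0 ≤ C1 / (s1 * κ) * |(d : ℝ) - d'| by positivity)
    refine le_trans (le_of_eq ?_) h5
    field_simp
  have hmeans := means (L := L) hσ hσ' hs1 hρ0 hdn hdn' hr hr' hsd2 hsd2' hsd1 hsd1'
  have hM : |((d : ℝ) - d') + (∑ j ∈ Finset.Ioc L d, Em (σ * j) - ∑ j ∈ Finset.Ioc L d', Em (σ' * j))| ≤ T / 2 := by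
    have h5 : (1 + s2) * |σ - σ'| / (σ * σ') * (1 + ℓ) ≤ (1 + s2) * C1 / (s1 * κ) * |(d : ℝ) - d'| * (1 + ℓ) := by
      refine mul_le_mul_of_nonneg_right ?_ (by linarith)
      calc (1 + s2) * |σ - σ'| / (σ * σ') = (1 + s2) * (|σ - σ'| / (σ * σ')) := by ring
        _ ≤ (1 + s2) * (C1 / (s1 * κ) * |(d : ℝ) - d'|) := mul_le_mul_of_nonneg_left hquot (by linarith)
        _ = (1 + s2) * C1 / (s1 * κ) * |(d : ℝ) - d'| := by ring
    have h6 : 1 / (ρ * s1) * |(d : ℝ) - d'| ≤ 1 / κ * |(d : ℝ) - d'| * (1 + ℓ) := by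
      have h7 : 0 ≤ 1 / κ * |(d : ℝ) - d'| := by positivity
      calc 1 / (ρ * s1) * |(d : ℝ) - d'| = 1 / κ * |(d : ℝ) - d'| * 1 := by rw [mul_one]
        _ ≤ 1 / κ * |(d : ℝ) - d'| * (1 + ℓ) := mul_le_mul_of_nonneg_left (by linarith) h7
    have h7 : |(d : ℝ) - d'| ≤ |(d : ℝ) - d'| * (1 + ℓ) := by
      have h8 : 0 ≤ |(d : ℝ) - d'| := abs_nonneg _
      nlinarith
    have h8 : |((d : ℝ) - d') + (∑ j ∈ Finset.Ioc L d, Em (σ * j) - ∑ j ∈ Finset.Ioc L d', Em (σ' * j))| ≤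
        K1 * |(d : ℝ) - d'| * (1 + ℓ) := by
      refine (abs_add_le _ _).trans ?_
      have h9 := hmeans.trans (add_le_add h5 h6)
      have h10 : K1 * |(d : ℝ) - d'| * (1 + ℓ) = |(d : ℝ) - d'| * (1 + ℓ) +
          ((1 + s2) * C1 / (s1 * κ) * |(d : ℝ) - d'| * (1 + ℓ) + 1 / κ * |(d : ℝ) - d'| * (1 + ℓ)) := by
        rw [hK1]
        ring
      rw [h10]
      exact add_le_add h7 h9
    have h9 : K1 * |(d : ℝ) - d'| * (1 + ℓ) ≤ Real.sqrt d * (K * Real.sqrt ℓ * (1 + ℓ)) := by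
      calc K1 * |(d : ℝ) - d'| * (1 + ℓ) ≤ K1 * (C * Real.sqrt (3 / c1) * (Real.sqrt d * Real.sqrt ℓ)) * (1 + ℓ) :=
            mul_le_mul_of_nonneg_right (mul_le_mul_of_nonneg_left hddb hK10.le) (by linarith)
        _ = Real.sqrt d * (K * Real.sqrt ℓ * (1 + ℓ)) := by
            rw [hK]
            ring
    have h10 : Real.sqrt d * (K * Real.sqrt ℓ * (1 + ℓ)) ≤ Real.sqrt d * (ℓ ^ 2 / 4) :=
      mul_le_mul_of_nonneg_left q1 (Real.sqrt_nonneg _)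
    have h11 : Real.sqrt d * (ℓ ^ 2 / 4) ≤ T / 2 := by
      rw [hT]
      have h12 := mul_le_mul_of_nonneg_right hdL (show 0 ≤ ℓ ^ 2 / 4 by positivity)
      linarith
    linarith
  -- the probabilities
  refine (bad_le d d' σ σ' e T rfl hM).trans ?_
  have hx0 : 0 ≤ (d : ℝ) * ℓ ^ 2 / 2 := by positivity
  have hκσ : κ ≤ σ * d := by
    calc κ = ρ * s1 := rfl
      _ ≤ 1 * s1 := mul_le_mul_of_nonneg_right hρ1 hs1.le
      _ = s1 := one_mul _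
      _ ≤ σ * d := hsd1
  have hκσ' : κ ≤ σ' * d := by
    calc κ = ρ * s1 := rfl
      _ ≤ ρ * (σ' * d') := mul_le_mul_of_nonneg_left hsd1' hρ0.le
      _ = σ' * (ρ * d') := by ring
      _ ≤ σ' * d := mul_le_mul_of_nonneg_left hr hσ'.le
  have p1 : ∀ τ : ℝ, 0 < τ → κ ≤ τ * d →
      PP.real {ω | (d : ℝ) * ℓ ^ 2 / 2 < (gs τ ω 1 : ℝ)} ≤ Real.exp (Cc - κ * ℓ ^ 2 / 32) := by
    intro τ hτ hκτ
    refine (tail_1 h4 τ _ hτ hx0).trans (Real.exp_le_exp.2 ?_)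
    have h5 : κ * ℓ ^ 2 ≤ (τ * d) * ℓ ^ 2 := mul_le_mul_of_nonneg_right hκτ (by positivity)
    have h6 : 0 ≤ κ * ℓ ^ 2 := by positivity
    nlinarith
  have p2 : ∀ (τ : ℝ) (D : ℕ), 0 < τ → κ ≤ τ * d → τ * D ≤ s2 →
      PP.real {ω | T / 4 ≤ |∑ j ∈ Finset.Ioc L D, ((gs τ ω j : ℝ) - Em (τ * j))|} ≤
        2 * Real.exp (Cc - κ * ℓ ^ 2 / 32) := by
    intro τ D hτ hκτ hD
    have h5 := htail τ D L (τ * d * ℓ ^ 2 / 8) hτ hL1 hD
    have e1 : τ * d * ℓ ^ 2 / 8 / (τ * Real.sqrt L) = T / 4 := by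
      rw [hT]
      field_simp
      norm_num
    rw [e1] at h5
    refine h5.trans (mul_le_mul_of_nonneg_left (Real.exp_le_exp.2 ?_) (by norm_num))
    have h6 : κ * ℓ ^ 2 ≤ (τ * d) * ℓ ^ 2 := mul_le_mul_of_nonneg_right hκτ (by positivity)
    linarith
  have hsum : (PP.real {ω | (d : ℝ) * ℓ ^ 2 / 2 < (gs σ ω 1 : ℝ)} +
        PP.real {ω | (d : ℝ) * ℓ ^ 2 / 2 < (gs σ' ω 1 : ℝ)}) +
      (PP.real {ω | T / 4 ≤ |∑ j ∈ Finset.Ioc L d, ((gs σ ω j : ℝ) - Em (σ * j))|} +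
        PP.real {ω | T / 4 ≤ |∑ j ∈ Finset.Ioc L d', ((gs σ' ω j : ℝ) - Em (σ' * j))|}) ≤
      6 * Real.exp (Cc - κ * ℓ ^ 2 / 32) := by
    have := p1 σ hσ hκσ
    have := p1 σ' hσ' hκσ'
    have := p2 σ d hσ hκσ hsd2
    have := p2 σ' d' hσ' hκσ' hsd2'
    linarith
  refine hsum.trans (q2.trans ?_)
  -- the final comparison with `n ^ (-A)`
  rw [Real.rpow_def_of_pos hnpos]
  apply Real.exp_le_exp.2
  have h5 := mul_le_mul_of_nonneg_left hlogn hA.le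
  linarith

end Pool.Agent.H539.GP174
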